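import Pool.Agent.N94.IdemDet

/-!
# Kaplansky's idempotent conjecture and `K₀(R) → K₀(RG)` in characteristic zero for torsion-free
# residually finite groups and groups locally embeddable into finite groups

`R` is any commutative domain of characteristic zero. If `K₀(R) → K₀(RG)` is surjective for the field
of fractions of `R`, then for every idempotent matrix `E` over `R[G]` the Hattori-Stallings rank is
`r` times the class of `1`, `r` the rank of the augmentation of `E`; idempotent matrices with
augmentation zero vanish, and `0`, `1` are the only idempotents of `R[G]`. These consequences are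
proved for torsion-free groups which are locally embeddable into finite groups (for instance
residually finite); the last two also for groups with a finite series of normal subgroups with
factors of this kind or locally indicable factors.
-/

set_option autoImplicit false

namespace Pool.Agent.Results.MP_1a2884_al.AugmentationDetects

universe u v

/-- The value of the Hattori-Stallings rank of the matrix `E` at the conjugacy class of `g`. -/
noncomputable def tau {R : Type u} [CommRing R] {G : Type v} [Group G] {k : ℕ}
    (E : Matrix (Fin k) (Fin k) (MonoidAlgebra R G)) (g : G) : R :=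
  ∑ i : Fin k, ∑ᶠ (h : G) (_ : IsConj h g), (E i i).coeff h

/-- The augmentation: the sum of the coefficients. -/
noncomputable def aug {R : Type u} [CommRing R] {G : Type v} [Group G] (x : MonoidAlgebra R G) : R :=
  ∑ g ∈ x.coeff.support, x.coeff g

/-- There are a map `f` from `G` to some group `H` with `f (x y) = f x f y` for `x, y ∈ W`, and a
homomorphism `π` from the centraliser of `f g` in `H` to a finite group with `π (f g) ^ m ≠ 1`. -/
def DetectedOn {G : Type v} [Group G] (g : G) (W : Finset G) (m : ℕ) : Prop :=
  ∃ (H : Type v) (_ : Group H) (f : G → H) (Q : Type) (_ : Group Q) (_ : Finite Q)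
    (π : Subgroup.centralizer ({f g} : Set H) →* Q) (z : Subgroup.centralizer ({f g} : Set H)),
    (∀ x ∈ W, ∀ y ∈ W, f (x * y) = f x * f y) ∧ (z : H) = f g ∧ π z ^ m ≠ 1

/-- `h` is conjugate to `h ^ (n ^ J)` for all `n` coprime to `m`, for some `m ≥ 2` and `J ≥ 1`. -/
def AlmostDivisible {G : Type v} [Group G] (h : G) : Prop :=
  ∃ m J : ℕ, 2 ≤ m ∧ 1 ≤ J ∧ ∀ n : ℕ, n.Coprime m → IsConj h (h ^ n ^ J)

/-- `h` is detected on every finite set with every exponent, or it is not almost divisible. -/
def Good {G : Type v} [Group G] (h : G) : Prop :=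
  (∀ (W : Finset G) (m : ℕ), m ≠ 0 → DetectedOn h W m) ∨ ¬ AlmostDivisible h

/-- `G` is locally embeddable into finite groups: for every finite subset `W` there is a map from
`G` to a finite group which is injective on `W` and multiplicative on `W`. -/
def LEF (G : Type v) [Group G] : Prop :=
  ∀ W : Finset G, ∃ (Q : Type) (_ : Group Q) (_ : Finite Q) (f : G → Q),
    Set.InjOn f W ∧ ∀ x ∈ W, ∀ y ∈ W, f (x * y) = f x * f y

/-- `G` is residually finite. -/
def ResFinite (G : Type v) [Group G] : Prop :=
  ∀ g : G, g ≠ 1 → ∃ N : Subgroup G, N.Normal ∧ N.FiniteIndex ∧ g ∉ N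

/-- `G` is torsion-free. -/
def TorsionFree (G : Type v) [Group G] : Prop := ∀ g : G, IsOfFinOrder g → g = 1

/-- In every finitely generated subgroup of `G` all elements of infinite order are good, or `G` is
locally embeddable into finite groups, or `G` is residually finite. -/
def LocallyGood (G : Type v) [Group G] : Prop :=
  (∀ H : Subgroup G, H.FG → ∀ h : H, ¬ IsOfFinOrder h → Good h) ∨ LEF G ∨ ResFinite G

/-- The normal subgroup `N` of `G`: every nontrivial finitely generated subgroup of `N` has a
nonzero homomorphism to the integers, or all elements `h ≠ 1` of `N` are good in every finitely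
generated subgroup of `G` that contains them, or `N` is torsion-free and `G` is locally embeddable
into finite groups or residually finite. -/
def GoodNormal {G : Type v} [Group G] (N : Subgroup G) : Prop :=
  (∀ H : Subgroup G, H ≤ N → H.FG → H ≠ ⊥ → ∃ φ : H →* Multiplicative ℤ, φ ≠ 1) ∨
  (∀ H : Subgroup G, H.FG → ∀ h : H, (h : G) ∈ N → h ≠ 1 → Good h) ∨
  ((∀ g ∈ N, IsOfFinOrder g → g = 1) ∧ (LEF G ∨ ResFinite G))

/-- `G` has a finite series `⊥ = S 0 ≤ S 1 ≤ ⋯ ≤ S k = G` of normal subgroups such that
`S (i + 1) / S i` is a good normal subgroup of `G / S i`. -/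
def GoodSeries (G : Type v) [Group G] : Prop :=
  ∃ (k : ℕ) (S : ℕ → Subgroup G) (_ : ∀ i, (S i).Normal), S 0 = ⊥ ∧ S k = ⊤ ∧
    ∀ i < k, S i ≤ S (i + 1) ∧ GoodNormal ((S (i + 1)).map (QuotientGroup.mk' (S i)))

open Pool.Agent.N94.BassDet Pool.Agent.N94.IdemDet in
theorem good_iff {G : Type v} [Group G] {h : G} (hh : Good h) :
    LocDet h ∨ ¬ Pool.Agent.H26R2.IdemLI.AlmostDiv h := hh

/-- **Idempotent matrices over group rings of characteristic zero.**  Let `R` be a commutative domain
of characteristic zero.

(1) Let `G` be torsion-free and locally embeddable into finite groups, or residually finite, or such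
that all elements `h ≠ 1` of its finitely generated subgroups are good. For every idempotent matrix
`E` over `R[G]` of size `k` there is `r ≤ k` such that the Hattori-Stallings rank of `E` has the value
`r` at `1` and zero elsewhere, `r` is the trace of the augmentation, and `E = 0` if `r = 0`.

(2) If `G` has a good series, then every idempotent matrix over `R[G]` with augmentation zero is
zero, and `0`, `1` are the only idempotents of `R[G]`. -/
theorem result :
    (∀ (R : Type u) [CommRing R] [IsDomain R] [CharZero R] (G : Type v) [Group G],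
      TorsionFree G → LocallyGood G →
        ∀ (k : ℕ) (E : Matrix (Fin k) (Fin k) (MonoidAlgebra R G)), E * E = E →
          ∃ r : ℕ, r ≤ k ∧ (∀ g : G, g ≠ 1 → tau E g = 0) ∧ tau E 1 = (r : R) ∧
            ∑ i, aug (E i i) = (r : R) ∧ (r = 0 → E = 0)) ∧
    (∀ (R : Type u) [CommRing R] [IsDomain R] [CharZero R] (G : Type v) [Group G],
      GoodSeries G →
        (∀ (k : ℕ) (E : Matrix (Fin k) (Fin k) (MonoidAlgebra R G)), E * E = E →
          (∀ i j, aug (E i j) = 0) → E = 0) ∧
        (∀ e : MonoidAlgebra R G, e * e = e → e = 0 ∨ e = 1)) := by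
  constructor
  · intro R _ _ _ G _ htf hG k E hE
    refine Pool.Agent.N94.IdemDet.hs_rank htf ?_ E hE
    rcases hG with h | h | h
    · exact fun H hH x hx => good_iff (h H hH x hx)
    · exact fun H _ x hx => Or.inl (Pool.Agent.N94.IdemDet.locDet_of_lef h hx)
    · exact fun H _ x hx => Or.inl (Pool.Agent.N94.IdemDet.locDet_of_lef
        (Pool.Agent.N94.IdemDet.lef_of_resFinite h) hx)
  · intro R _ _ _ G _ hG
    have hdet : ∀ (K : Type u) [Field K] [CharZero K],
        Pool.Agent.H26R2.IdemLI.Det K (⊤ : Subgroup G) := by
      intro K _ _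
      obtain ⟨k, S, hn, h0, hk, hs⟩ := hG
      have htop : ∀ (N : Subgroup G) [N.Normal], N = ⊤ → Pool.Agent.H26R2.IdemLI.Det K N →
          Pool.Agent.H26R2.IdemLI.Det K (⊤ : Subgroup G) := by
        rintro N _ rfl h
        exact h
      refine htop (S k) hk
        (Pool.Agent.N94.IdemDet.det_finite_series S h0 k (fun i hi => ⟨(hs i hi).1, ?_⟩))
      have hnorm : ((S (i + 1)).map (QuotientGroup.mk' (S i))).Normal :=
        Subgroup.Normal.map (hn (i + 1)) _ (QuotientGroup.mk'_surjective (S i))
      have key : ∀ (G : Type v) [Group G] (N : Subgroup G) [N.Normal],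
          ((∀ g ∈ N, IsOfFinOrder g → g = 1) ∧ LEF G) →
            Pool.Agent.H26R2.IdemLI.Det K N := by
        rintro G _ N _ ⟨h1, h2⟩
        apply Pool.Agent.N94.IdemDet.det_good
        intro H _ x hx hx1
        left
        apply Pool.Agent.N94.IdemDet.locDet_of_lef h2
        intro h3
        apply hx1
        apply Subtype.ext
        exact h1 _ hx (Submonoid.isOfFinOrder_coe.2 h3)
      rcases (hs i hi).2 with h | h | ⟨h1, h2 | h2⟩
      · apply Pool.Agent.H26R2.IdemLI.det_of_locInd
        intro H hHN hHfg hHne
        obtain ⟨φ, hφ⟩ := h H hHN hHfg hHne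
        refine ⟨(AddMonoidHom.toMultiplicative (Int.castAddHom K)).comp φ, ?_⟩
        intro h1
        apply hφ
        ext1 x
        have h2 := DFunLike.congr_fun h1 x
        have h3 : ((Multiplicative.toAdd (φ x) : ℤ) : K) = 0 := h2
        have h4 : Multiplicative.toAdd (φ x) = 0 := by exact_mod_cast h3
        exact h4
      · exact Pool.Agent.N94.IdemDet.det_good _
          (fun H hH x hx hx1 => good_iff (h H hH x hx hx1))
      · exact key _ _ ⟨h1, h2⟩
      · exact key _ _ ⟨h1, Pool.Agent.N94.IdemDet.lef_of_resFinite h2⟩
    refine ⟨?_, ?_⟩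
    · intro k E hE h0
      exact Pool.Agent.N94.IdemDet.domain_zero_of_aug hdet E hE h0
    · intro e he
      exact Pool.Agent.N94.IdemDet.domain_triv hdet e he

end Pool.Agent.Results.MP_1a2884_al.AugmentationDetects
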