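import Pool.Agent.N510.CT.Mod2

set_option autoImplicit false

/-!
# Modules over group rings at the norm `3 / √2`

Modules over the group ring of any ring and any group which have a presentation matrix whose
support pattern has operator norm at most `3 / √2` (the bound included) are induced from virtually
cyclic subgroups; over a field and a torsion-free group projective ones are free. For every larger
bound all finitely presented modules have presentations of such a norm, even with coefficients in a
given symmetric set of additive generators of the ring.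
-/

namespace Pool.Agent.Results.MP_1a2884_al.CriticalNormModules

open TH57.Thr TH6.PF Pool.Agent.N510

/-- `P` is the cokernel of the right multiplication with `A` on row vectors. -/
def Presents {R : Type} [Ring R] {G : Type} [Group G] {m n : ℕ}
    (A : Matrix (Fin m) (Fin n) (MonoidAlgebra R G))
    (P : Type) [AddCommGroup P] [Module (MonoidAlgebra R G) P] : Prop :=
  Nonempty (P ≃ₗ[MonoidAlgebra R G] Coker A)

/-- The module `P` has a presentation matrix whose support pattern has norm at most `c`. -/
def HasThin (R : Type) [Ring R] (G : Type) [Group G] (c : ℝ)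
    (P : Type) [AddCommGroup P] [Module (MonoidAlgebra R G) P] : Prop :=
  ∃ (m n : ℕ) (A : Matrix (Fin m) (Fin n) (MonoidAlgebra R G)), Presents A P ∧ ThinLE A c

/-- The same with a matrix with coefficients in `S ∪ {0}`. -/
def HasThinIn {R : Type} [Ring R] (S : Set R) (G : Type) [Group G] (c : ℝ)
    (P : Type) [AddCommGroup P] [Module (MonoidAlgebra R G) P] : Prop :=
  ∃ (m n : ℕ) (A : Matrix (Fin m) (Fin n) (MonoidAlgebra R G)),
    Presents A P ∧ LT.CS S A ∧ ThinLE A c

/-- 1. Let the `RG`-module `P` have a presentation matrix whose support pattern has norm at most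
`3 / √2`. Then `P` is a direct sum of modules induced from virtually cyclic subgroups of `G`
(cyclic ones if `G` is torsion-free), projective ones if `P` is projective.
2. If moreover `R` is a field, `G` is torsion-free and `P` is projective then `P` is free.
3. Let `c > 3 / √2` and let `S` be a set of additive generators of `R` with `1 ∈ S` and `-S = S`.
Then every finitely presented `RG`-module has a presentation matrix with coefficients in `S ∪ {0}`
whose support pattern has norm at most `c`. -/
theorem result :
    (∀ (R : Type) [Ring R] (G : Type) [Group G] (c : ℝ), 0 < c → c ^ 2 ≤ 9 / 2 →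
      ∀ (P : Type) [AddCommGroup P] [Module (MonoidAlgebra R G) P],
      HasThin R G c P → VCSum R G P) ∧
    (∀ (K : Type) [Field K] (G : Type) [Group G] (c : ℝ), TF G → 0 < c → c ^ 2 ≤ 9 / 2 →
      ∀ (P : Type) [AddCommGroup P] [Module (MonoidAlgebra K G) P],
      HasThin K G c P → Module.Projective (MonoidAlgebra K G) P →
        Module.Free (MonoidAlgebra K G) P) ∧
    ∀ (R : Type) [Ring R] [Nontrivial R] (S : Set R), LT.Gens S → ∀ (G : Type) [Group G]
      (c : ℝ), 9 / 2 < c ^ 2 → ∀ (P : Type) [AddCommGroup P] [Module (MonoidAlgebra R G) P],
      Module.FinitePresentation (MonoidAlgebra R G) P → HasThinIn S G c P := by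
  refine ⟨?_, ?_, ?_⟩
  · rintro R _ G _ c hc0 hc P _ _ ⟨m, n, A, ⟨e⟩, hA⟩
    exact CT.thin_VCSum2 R G P m n A e c hc0 hc hA
  · rintro K _ G _ c htf hc0 hc P _ _ ⟨m, n, A, ⟨e⟩, hA⟩ hP
    exact CT.thin_free2 K G htf P hP m n A e c hc0 hc hA
  · intro R _ _ S hS G _ c hc P _ _ hP
    obtain ⟨m, n, A, h1, h2, h3⟩ := CT.sthin_pres hS P hP c hc
    exact ⟨m, n, A, h3, h1, h2⟩

end Pool.Agent.Results.MP_1a2884_al.CriticalNormModules
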