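import Pool.Agent.H94R2.ZD7
import Pool.Agent.H26R2.IdemLI.Cls

/-!
# Idempotents of group algebras of torsion-free groups: number of terms and transcendence degree

If `K₀(K) → K₀(K[G])` is bijective for a field `K` and a torsion-free group `G`, then `0` and `1` are
the only idempotents of `K[G]`.  We prove this conclusion, for all fields and all torsion-free groups,
for the idempotents with at most `3 + t` terms, where `t` is the transcendence degree of the field
generated by the coefficients over the prime field; and in characteristic zero for those with at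
most four terms.

The valuation-theoretic part is in the starting library (`Pool.Agent.H94R2.ZD`, not handed in
before), and so is Kaplansky's theorem on the trace (`Pool.Agent.H26R2.IdemLI`), from which the
additional statement in characteristic zero is deduced here.
-/

set_option autoImplicit false

namespace Pool.Agent.Results.MP_1a2884_al.IdempotentTranscendence

open MonoidAlgebra
open Pool.Agent.H94R2.ZD

universe u v

section CharZero

variable {G : Type v} [Group G] {K : Type u} [Field K]

/-- the trace of a nonzero idempotent is not zero -/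
theorem trace_ne_zero [CharZero K] (e : MonoidAlgebra K G) (he : e * e = e) (h0 : e ≠ 0) :
    e.coeff 1 ≠ 0 := by
  intro h
  have h1 := Pool.Agent.H26R2.IdemLI.kaplansky (n := 1) (K := K) (G := G)
    (Matrix.of fun _ _ => e) (by
      ext i j
      simp [Matrix.mul_apply, he]) (by simpa using h)
  apply h0
  have h2 := congrFun (congrFun h1 0) 0
  simpa using h2

/-- in characteristic zero there are no nontrivial idempotents with four terms -/
theorem five_le [CharZero K] (hG : ∀ g : G, ∀ n : ℕ, 0 < n → g ^ n = 1 → g = 1)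
    (e : MonoidAlgebra K G) (he : e * e = e) (h0 : e ≠ 0) (h1 : e ≠ 1) :
    5 ≤ e.coeff.support.card := by
  classical
  have h4 := four_le_idem hG e h0 he h1
  by_contra hlt
  have hc : e.coeff.support.card = 4 := by omega
  have hr : e.coeff 1 ≠ 0 := trace_ne_zero e he h0
  have hr1 : e.coeff 1 ≠ 1 := by
    intro h
    have h2 := trace_ne_zero (1 - e) (by rw [mul_sub, sub_mul, sub_mul, he]; simp)
      (sub_ne_zero.2 (Ne.symm h1))
    apply h2
    have h3 : (1 - e).coeff 1 = (1 : MonoidAlgebra K G).coeff 1 - e.coeff 1 := rfl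
    rw [h3, one_def, coeff_single, Finsupp.single_eq_same, h, sub_self]
  have h1s : (1 : G) ∈ e.coeff.support := Finsupp.mem_support_iff.2 hr
  set A := e.coeff.support.erase 1 with hA
  have hAc : A.card = 3 := by rw [hA, Finset.card_erase_of_mem h1s, hc]
  have h1A : (1 : G) ∉ A := Finset.notMem_erase _ _
  have hmem : ∀ g, g ∈ A ↔ g ≠ 1 ∧ e.coeff g ≠ 0 := fun g => by
    rw [hA, Finset.mem_erase, Finsupp.mem_support_iff]
  have hconv : ∀ m : G, e.coeff m =
      e.coeff 1 * e.coeff m + ∑ a ∈ A, e.coeff a * e.coeff (a⁻¹ * m) := by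
    intro m
    nth_rewrite 1 [← he]
    rw [coeff_mul_l, ← Finset.add_sum_erase _ _ h1s, inv_one, one_mul]
  have hm : ∀ m : G, m ≠ 1 → (1 - 2 * e.coeff 1) * e.coeff m =
      ∑ a ∈ A.erase m, e.coeff a * e.coeff (a⁻¹ * m) := by
    intro m hm1
    by_cases hmA : m ∈ A
    · have h3 := hconv m
      rw [← Finset.add_sum_erase A _ hmA, inv_mul_cancel] at h3
      linear_combination h3
    · have hz : e.coeff m = 0 := by
        by_contra h
        exact hmA ((hmem m).2 ⟨hm1, h⟩)
      have h3 := hconv m
      rw [hz, mul_zero, zero_add] at h3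
      rw [hz, mul_zero, Finset.erase_eq_of_notMem hmA]
      exact h3
  by_cases h2 : 1 - 2 * e.coeff 1 = 0
  · have hid : ∑ a ∈ A, e.coeff a * e.coeff (a⁻¹ * 1) = e.coeff 1 - e.coeff 1 * e.coeff 1 := by
      have h3 := hconv 1
      linear_combination -h3
    have hid0 : ∑ a ∈ A, e.coeff a * e.coeff (a⁻¹ * 1) ≠ 0 := by
      rw [hid]
      intro h
      have h3 : e.coeff 1 * (1 - e.coeff 1) = 0 := by linear_combination h
      rcases mul_eq_zero.1 h3 with h | h
      · exact hr h
      · exact hr1 (sub_eq_zero.1 h).symm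
    obtain ⟨a, ha, ha'⟩ := Finset.exists_ne_zero_of_sum_ne_zero hid0
    rw [mul_one] at ha'
    have ha1 : a ≠ 1 := ((hmem a).1 ha).1
    have tors : ∀ n : ℕ, 0 < n → a ^ n ≠ 1 := fun n hn h => ha1 (hG a n hn h)
    have hai : a⁻¹ ∈ A := (hmem _).2 ⟨inv_ne_one.2 ha1, right_ne_zero_of_mul ha'⟩
    have haa : a ≠ a⁻¹ := by
      intro h
      apply tors 2 (by norm_num)
      rw [pow_two]
      nth_rewrite 2 [h]
      exact mul_inv_cancel a
    have hcard : ((A.erase a).erase a⁻¹).card = 1 := by
      rw [Finset.card_erase_of_mem (Finset.mem_erase.2 ⟨haa.symm, hai⟩),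
        Finset.card_erase_of_mem ha, hAc]
    obtain ⟨z, hz⟩ := Finset.card_eq_one.1 hcard
    have hz' : z ∈ (A.erase a).erase a⁻¹ := by rw [hz]; exact Finset.mem_singleton_self z
    obtain ⟨hza', hz''⟩ := Finset.mem_erase.1 hz'
    obtain ⟨hza, hzA⟩ := Finset.mem_erase.1 hz''
    have hall : ∀ c ∈ A, c = a ∨ c = a⁻¹ ∨ c = z := by
      intro c hc
      by_contra h
      push Not at h
      have h3 : c ∈ (A.erase a).erase a⁻¹ :=
        Finset.mem_erase.2 ⟨h.2.1, Finset.mem_erase.2 ⟨h.1, hc⟩⟩
      rw [hz] at h3
      exact h.2.2 (Finset.mem_singleton.1 h3)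
    have step : ∀ b : G, b ∈ A → (∀ c ∈ A, c = b ∨ c = b⁻¹ ∨ c = z) → z ≠ b →
        z = b ^ 3 ∨ z ^ 2 = b ^ 2 := by
      intro b hb hall hzb
      obtain ⟨hb1, hb0⟩ := (hmem b).1 hb
      have tors : ∀ n : ℕ, 0 < n → b ^ n ≠ 1 := fun n hn h => hb1 (hG b n hn h)
      have hbb : b * b ≠ 1 := by rw [← pow_two]; exact tors 2 (by norm_num)
      have hs := hm (b * b) hbb
      rw [h2, zero_mul] at hs
      have hbm : b ∈ A.erase (b * b) :=
        Finset.mem_erase.2 ⟨fun h => hb1 (mul_eq_left.1 h.symm), hb⟩
      rw [← Finset.add_sum_erase _ _ hbm, inv_mul_cancel_left] at hs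
      have hne : ∑ c ∈ (A.erase (b * b)).erase b,
          e.coeff c * e.coeff (c⁻¹ * (b * b)) ≠ 0 := by
        intro h
        rw [h, add_zero] at hs
        exact mul_ne_zero hb0 hb0 hs.symm
      obtain ⟨c, hc, hc'⟩ := Finset.exists_ne_zero_of_sum_ne_zero hne
      obtain ⟨hcb, hc2⟩ := Finset.mem_erase.1 hc
      obtain ⟨hcbb, hcA⟩ := Finset.mem_erase.1 hc2
      have hd : c⁻¹ * (b * b) ∈ A :=
        (hmem _).2 ⟨fun h => hcbb (inv_mul_eq_one.1 h), right_ne_zero_of_mul hc'⟩
      rcases hall c hcA with h | h | h
      · exact absurd h hcb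
      · rw [h, inv_inv] at hd
        rcases hall _ hd with h | h | h
        · exact absurd (mul_eq_left.1 h) hbb
        · exfalso
          apply tors 4 (by norm_num)
          have h5 : b ^ 4 = b * (b * (b * b)) := by
            simp only [pow_succ, pow_zero, one_mul, mul_assoc]
          rw [h5, h, mul_inv_cancel]
        · left
          rw [← h]
          simp only [pow_succ, pow_zero, one_mul, mul_assoc]
      · rw [h] at hd
        rcases hall _ hd with h | h | h
        · exfalso
          apply hzb
          have h5 := inv_mul_eq_iff_eq_mul.1 h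
          exact (mul_right_cancel h5).symm
        · left
          have h5 := inv_mul_eq_iff_eq_mul.1 h
          rw [eq_mul_inv_iff_mul_eq] at h5
          rw [← h5]
          simp only [pow_succ, pow_zero, one_mul, mul_assoc]
        · right
          have h5 := inv_mul_eq_iff_eq_mul.1 h
          rw [pow_two, pow_two, h5]
    have s1 := step a ha hall hza
    have s2 := step a⁻¹ hai (fun c hc => by
      rcases hall c hc with h | h | h
      · right; left; rw [inv_inv]; exact h
      · left; exact h
      · right; right; exact h) hza'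
    rcases s1 with s1 | s1 <;> rcases s2 with s2 | s2
    · apply tors (3 + 3) (by norm_num)
      have h5 : a ^ 3 = (a⁻¹) ^ 3 := s1.symm.trans s2
      rw [inv_pow, eq_inv_iff_mul_eq_one, ← pow_add] at h5
      exact h5
    · rw [s1, ← pow_mul, inv_pow, eq_inv_iff_mul_eq_one, ← pow_add] at s2
      exact tors _ (by norm_num) s2
    · rw [s2, ← pow_mul, inv_pow, eq_comm, eq_inv_iff_mul_eq_one, ← pow_add] at s1
      exact tors _ (by norm_num) s1
    · rw [s1, inv_pow, eq_inv_iff_mul_eq_one, ← pow_add] at s2
      exact tors _ (by norm_num) s2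
  · apply no3 hG A hAc h1A
    intro a ha
    obtain ⟨ha1, ha0⟩ := (hmem a).1 ha
    have hs := hm a ha1
    have hne : ∑ b ∈ A.erase a, e.coeff b * e.coeff (b⁻¹ * a) ≠ 0 := by
      rw [← hs]
      exact mul_ne_zero h2 ha0
    obtain ⟨b, hb, hb'⟩ := Finset.exists_ne_zero_of_sum_ne_zero hne
    refine ⟨b, Finset.mem_of_mem_erase hb, b⁻¹ * a,
      (hmem _).2 ⟨?_, right_ne_zero_of_mul hb'⟩, (mul_inv_cancel_left b a).symm⟩
    intro h
    exact Finset.ne_of_mem_erase hb (inv_mul_eq_one.1 h)

end CharZero

/-- Let `K` be a field, `G` a torsion-free group and `e ≠ 0, 1` an idempotent of `K[G]`.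

1. `e` has at least four terms, and at least five if the characteristic of `K` is zero.
2. The field generated by the coefficients of `e` over the prime field has transcendence degree at
   most the number of terms minus four.
3. For every valuation ring `V` of `K` at least four coefficients of `e` are of maximal size: there
   are four elements `g` of the support such that all `e(h) / e(g)` are in `V`.
4. For every embedding of `K` in the complex numbers and every coefficient of `e`, the absolute
   value of the coefficient is less than half of the sum of the absolute values of all of them. -/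
theorem result {K : Type u} [Field K] {G : Type v} [Group G]
    (hG : ∀ g : G, ∀ n : ℕ, 0 < n → g ^ n = 1 → g = 1)
    (e : MonoidAlgebra K G) (he : e * e = e) (h0 : e ≠ 0) (h1 : e ≠ 1) :
    4 ≤ e.coeff.support.card ∧
    (CharZero K → 5 ≤ e.coeff.support.card) ∧
    Algebra.trdeg (⊥ : Subfield K) (IntermediateField.adjoin (⊥ : Subfield K)
      (Set.range e.coeff)) + 4 ≤ e.coeff.support.card ∧
    (∀ V : ValuationSubring K, ∃ T ⊆ e.coeff.support, 4 ≤ T.card ∧
      ∀ g ∈ T, ∀ h, e.coeff h / e.coeff g ∈ V) ∧
    (∀ σ : K →+* ℂ, ∀ g ∈ e.coeff.support,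
      2 * ‖σ (e.coeff g)‖ < ∑ h ∈ e.coeff.support, ‖σ (e.coeff h)‖) := by
  refine ⟨four_le_idem hG e h0 he h1, fun _ => five_le hG e he h0 h1, ?_, ?_, ?_⟩
  · have h := idem_trdeg_gen e he h0 h1 4 (fun L _ _ z hz0 hz => by
      rcases hz with hz | ⟨hz, hz1⟩
      · exact four_le_sq hG z hz0 hz
      · exact four_le_idem hG z hz0 hz hz1)
    exact_mod_cast h
  · intro V
    obtain ⟨z, hzs, hz0, hz⟩ := red_idem V e he h0 h1
    have key : ∀ g ∈ z.coeff.support, g ∈ MinTerms V e := fun g hg => by
      rw [← hzs]
      exact hg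
    refine ⟨z.coeff.support, fun g hg => (key g hg).1, ?_, fun g hg => (key g hg).2⟩
    rcases hz with ⟨-, h2, h3⟩ | ⟨-, h2⟩
    · exact four_le_idem hG z hz0 h2 h3
    · exact four_le_sq hG z hz0 h2
  · intro σ g hg
    exact arch hG e (idem_zdiv e he h1) σ g hg

end Pool.Agent.Results.MP_1a2884_al.IdempotentTranscendence
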