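import Pool.Agent.N508.CS.Tfr
import Pool.Agent.N508.CS.Afr
import Pool.Agent.N508.CS.Pst
import Pool.Agent.N508.CS.Qw
import Pool.Agent.N508.CS.Trv
import Pool.Agent.N508.CS.TrgB
import Pool.Agent.N508.CS.Trq
import Pool.Agent.N508.CS.Kse

/-!
# Extensions whose kernels are fundamental groups of graphs of groups, and the Farrell-Jones conjecture

`C` is any class of groups with the closure properties `ClosedE C` which contains the metabelian groups
and the groups `F ⋊ Z`, `F` a free group (`FbC`). All this is published for the class of the groups whose
wreath products with finite groups satisfy the K-theoretic (or the L-theoretic) Farrell-Jones conjecture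
with coefficients in additive categories (Wegner for solvable groups, Bestvina, Fujiwara and Wigglesworth
and Brück, Kielak and Wu for free-by-cyclic groups).

Let `N` be a normal subgroup of `G` with `G / N` in `C`, and let `N` act on a tree `T` without
inversions. The action need not extend to an action of `G`, but `G` permutes the vertex stabilizers
`N_v` of `N`. Let `A_0(v) ≤ ... ≤ A_m(v)` be subgroups of `N_v` such that

* `A_m(v)` contains the stabilizers of the edges at `v`, and `A_0(v) = 1`;
* `n A_i(v) n⁻¹ ≤ A_i(nv)` for `n` in `N`, and `A_i(v) ∩ N_u ≤ A_i(u)` for adjacent `u`, `v`;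
* the groups `A_{i+1}(v) / A_i(v)`, `i < m`, are abelian;
* conjugation with elements of `G` maps elements of the groups `A_i(v)` to elements of such groups;
* for `g` in `G` with `g N_v g⁻¹ = N_v` the quotient of `N_v⟨g⟩` by `A_m(v)` embeds in a group in `C`.

Then `G` is in `C`.

For `m = 0` the edge stabilizers are trivial and `N` is a free product of vertex stabilizers and a free
group; this case is `FreeProductExtensions` (for `MP_490288_al`), which is used in the proof. For `m = 1`
the edge groups are contained in abelian normal subgroups of the vertex groups, for example in their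
centers: so extensions of groups in `C` by amalgams and graphs of groups `N_v` along subgroups of their
centers are in `C`, if `G` permutes the conjugacy classes of the vertex groups and the mapping tori of
the groups `N_v` modulo `A(v)` are in `C`, for example if the groups `N_v` are central extensions of
hyperbolic groups. Free products have many automorphisms which preserve the conjugacy classes of the
factors but no tree, so that theorems for groups `G` acting on trees do not apply.

Outline of the proof. Let `P_i` be the subgroup generated by the groups `A_i(v)`. It is normal in `G`.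
The group `N / P_m` acts on the quotient tree `T / P_m` with trivial edge stabilizers, and `G / P_m`
permutes its vertex stabilizers `N_v / A_m(v)`. The group generated by these is a free product of such
groups, with free quotient; by the theorem on free product kernels `G / P_m` is in `C`. For `i < m` the
commutator subgroup of `P_{i+1} / P_i` is free, as this group acts on `T / P_i` with abelian vertex
stabilizers `A_{i+1}(v) / A_i(v)` which generate it; so `G / P_i` is an extension with free kernel of an
extension with abelian kernel of `G / P_{i+1}`.
-/

set_option autoImplicit false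

namespace Pool.Agent.Results.MP_1a2884_al.PermutedVertexGroups

open Pool.Agent.Y110.FJ (ClosedE)
open Pool.Agent.R684.FP (FbC)
open Pool.Agent.N508.CS

theorem result (C : ∀ (G : Type) [Group G], Prop) (hC : ClosedE C)
    (hM : ∀ (G : Type) [Group G], derivedSeries G 2 = ⊥ → C G) (hF : FbC C)
    {G V : Type} [Group G] (N : Subgroup G) [N.Normal] (hQ : C (G ⧸ N))
    [MulAction N V] (T : SimpleGraph V) (hT : T.IsTree)
    (hact : ∀ (g : N) (u v : V), T.Adj u v → T.Adj (g • u) (g • v))
    (hinv : ∀ (g : N) (u v : V), T.Adj u v → ¬ (g • u = v ∧ g • v = u))
    (m : ℕ) (A : ℕ → V → Subgroup N) (hfam : ∀ i ≤ m, CFam T (A i)) (hbot : ∀ v, A 0 v = ⊥)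
    (hab : ∀ i < m, ∀ v, A i v ≤ A (i + 1) v ∧ ⁅A (i + 1) v, A (i + 1) v⁆ ≤ A i v)
    (hG : ∀ i ≤ m, ∀ (g : G) (v : V), ∀ a ∈ A i v,
      ∃ (w : V) (b : N), b ∈ A i w ∧ (b : G) = g * (a : G) * g⁻¹)
    (htop : KPm C N T (A m)) : C G :=
  t_kse (t_trq (t_trv t_tfr) t_qw t_trgB) t_afr t_pst C hC hM hF G V N T hT hact hinv m A hfam hbot
    hab hG htop hQ

end Pool.Agent.Results.MP_1a2884_al.PermutedVertexGroups
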